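import Mathlib

/-!
Project SG (helper file): two systems of finite derivations on pairs of finite sets. A state consists
of a finite set `s` of nodes `d = (m, σ)`, `m` a natural number and `σ` a finite sequence of bits, and a
finite set `α` of points of the Cantor set. `Op` generates the basic neighbourhoods of the neutral
element, and `Cl` the closed sets between them.
-/

set_option autoImplicit false

namespace Pool.Agent.Q209.SG

/-- Points of the Cantor set. -/
abbrev Pt := ℕ → Bool

/-- Nodes: a block number and a finite sequence of bits. -/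
abbrev Nd := ℕ × List Bool

/-- The first `k` bits of a point. -/
def res (b : Pt) (k : ℕ) : List Bool := (List.range k).map b

/-- The length of a node. -/
def len (d : Nd) : ℕ := d.2.length

/-- The sequence of the node `d` is an initial segment of `b`. -/
def On (d : Nd) (b : Pt) : Prop := res b (len d) = d.2

theorem res_length (b : Pt) (k : ℕ) : (res b k).length = k := by
  simp [res]

theorem res_eq_iff (b b' : Pt) (k : ℕ) : res b k = res b' k ↔ ∀ i < k, b i = b' i := by
  simp [res]

theorem on_res (b : Pt) (m k : ℕ) : On (m, res b k) b := by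
  simp [On, len, res_length]

theorem on_agree {d : Nd} {b b' : Pt} (h : On d b) (h' : On d b') : ∀ i < len d, b i = b' i := by
  have h1 : res b (len d) = res b' (len d) := h.trans h'.symm
  exact (res_eq_iff b b' _).1 h1

theorem on_iff_of_lt {d d' : Nd} {b b' : Pt} (h : On d b) (h' : On d b') (hl : len d' ≤ len d) :
    On d' b ↔ On d' b' := by
  have h1 := on_agree h h'
  have h2 : res b (len d') = res b' (len d') :=
    (res_eq_iff b b' _).2 fun i hi => h1 i (lt_of_lt_of_le hi hl)
  rw [On, On, h2]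

/-- The parameters of a basic neighbourhood. -/
structure Par where
  N : Finset Nd → ℕ
  n : Finset Nd → ℕ
  S : Finset Nd → Finset Pt

/-- `j` is within the distance `len d - N` of the block of `d`. -/
def InJ (N : ℕ) (d : Nd) (j : ℕ) : Prop := N + (j - d.1) ≤ len d ∧ N + (d.1 - j) ≤ len d

variable (μ : Pt → ℕ)

/-- The block of `d` is one of the two blocks of `b`. -/
def Near (d : Nd) (b : Pt) : Prop := d.1 = μ b ∨ d.1 = μ b + 1

open scoped Classical in
/-- The open system. -/
inductive Op (γ : Par) : Finset Nd → Finset Pt → Prop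
  | zero : Op γ ∅ ∅
  | tog (s : Finset Nd) (α : Finset Pt) (d : Nd) (b : Pt) (h : Op γ s α)
      (h1 : ∀ d' ∈ s, len d' < len d) (h2 : γ.N s < len d) (h3 : On d b)
      (h4 : ∀ b', b' ∈ γ.S s ∨ b' ∈ α → b' ≠ b → ¬ On d b')
      (h5 : Near μ d b ∨ (b ∉ γ.S s ∧ b ∉ α ∧ InJ (γ.N s) d (μ b) ∧ InJ (γ.N s) d (μ b + 1))) :
      Op γ (symmDiff s {d}) (symmDiff α {b})
  | add (s : Finset Nd) (α : Finset Pt) (y : Pt) (h : Op γ s α) (h1 : y ∉ γ.S s) (h2 : y ∉ α)
      (h3 : γ.n s ≤ μ y) : Op γ s (symmDiff α {y})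

open scoped Classical in
/-- The closed system. The last argument gives for each point the set of the blocks of the nodes which
may replace it. -/
inductive Cl (γ : Par) : Finset Nd → Finset Pt → (Pt → Set ℕ) → Prop
  | zero (J : Pt → Set ℕ) : Cl γ ∅ ∅ J
  | new (s : Finset Nd) (α : Finset Pt) (J : Pt → Set ℕ) (d : Nd) (b : Pt) (h : Cl γ s α J)
      (h1 : ∀ d' ∈ s, len d' < len d) (h2 : γ.N s < len d) (h3 : On d b)
      (h4 : ∀ b', b' ∈ γ.S s ∨ b' ∈ α → b' ≠ b → ¬ On d b') (h5 : b ∉ γ.S s) (h6 : b ∉ α)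
      (h7 : InJ (γ.N s) d (μ b) ∨ InJ (γ.N s) d (μ b + 1)) :
      Cl γ (insert d s) (insert b α) (Function.update J b {j | InJ (γ.N s) d j})
  | old (s : Finset Nd) (α : Finset Pt) (J : Pt → Set ℕ) (d : Nd) (b : Pt) (h : Cl γ s α J)
      (h1 : ∀ d' ∈ s, len d' < len d) (h2 : γ.N s < len d) (h3 : On d b)
      (h4 : ∀ b', b' ∈ γ.S s ∨ b' ∈ α → b' ≠ b → ¬ On d b') (h5 : b ∈ γ.S s) (h6 : b ∉ α)
      (h7 : Near μ d b) :
      Cl γ (insert d s) (insert b α) (Function.update J b Set.univ)
  | rem (s : Finset Nd) (α : Finset Pt) (J : Pt → Set ℕ) (d : Nd) (b : Pt) (h : Cl γ s α J)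
      (h1 : ∀ d' ∈ s, len d' < len d) (h2 : γ.N s < len d) (h3 : On d b)
      (h4 : ∀ b', b' ∈ γ.S s ∨ b' ∈ α → b' ≠ b → ¬ On d b') (h6 : b ∈ α)
      (h7 : Near μ d b) (h8 : d.1 ∈ J b) :
      Cl γ (insert d s) (α.erase b) J
  | add (s : Finset Nd) (α : Finset Pt) (J : Pt → Set ℕ) (y : Pt) (h : Cl γ s α J)
      (h1 : y ∉ γ.S s) (h2 : y ∉ α) (h3 : γ.n s ≤ μ y + 1) :
      Cl γ s (insert y α) (Function.update J y {j | γ.n s ≤ j})

/-- Good parameters. -/
structure Good (γ : Par) : Prop where
  S_mono : ∀ (s : Finset Nd) (d : Nd), γ.S s ⊆ γ.S (insert d s)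
  n_mono : ∀ (s : Finset Nd) (d : Nd), γ.n s ≤ γ.n (insert d s)
  big : ∀ (s : Finset Nd), ∀ d ∈ s, d.1 + len d + 3 ≤ γ.n s

variable {μ}

theorem Cl.cast {γ : Par} {s : Finset Nd} {α α' : Finset Pt} {J : Pt → Set ℕ} (h : Cl μ γ s α J)
    (e : α = α') : Cl μ γ s α' J := e ▸ h

open scoped Classical in
theorem replace {γ : Par} (hγ : Good γ) {t : Finset Nd} {α : Finset Pt} {J : Pt → Set ℕ}
    (h : Cl μ γ t α J) : ∀ b₁ b : Pt, b₁ ∈ α → b₁ ∉ γ.S t → b ∉ γ.S t → b ∉ α →
      (∀ d ∈ t, On d b ↔ On d b₁) → (μ b ∈ J b₁ ∨ μ b + 1 ∈ J b₁) →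
      ∃ J', Cl μ γ t (insert b (α.erase b₁)) J' ∧ J' b = J b₁ ∧ ∀ x ∈ α, x ≠ b₁ → J' x = J x := by
  induction h with
  | zero J => intro b₁ b h; exact absurd h (Finset.notMem_empty _)
  | new s α J d b₂ h h1 h2 h3 h4 h5 h6 h7 ih =>
    intro b₁ b hb₁ hS₁ hS hb hag hJ
    have hne : b ≠ b₂ := fun e => hb (e ▸ Finset.mem_insert_self _ _)
    have hbα : b ∉ α := fun e => hb (Finset.mem_insert_of_mem e)
    have hSs : b ∉ γ.S s := fun e => hS (hγ.S_mono s d e)
    have hSs₁ : b₁ ∉ γ.S s := fun e => hS₁ (hγ.S_mono s d e)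
    by_cases e : b₁ = b₂
    · subst e
      rw [Function.update_self] at hJ
      refine ⟨_, (Cl.new s α J d b h h1 h2 ((hag d (Finset.mem_insert_self _ _)).2 h3) ?_ hSs hbα
        hJ).cast (by rw [Finset.erase_insert h6]), ?_, ?_⟩
      · intro b' hb' _
        by_cases e' : b' = b₁
        · subst e'
          rcases hb' with hb' | hb'
          · exact absurd hb' h5
          · exact absurd hb' h6
        · exact h4 b' hb' e'
      · rw [Function.update_self, Function.update_self]
      · intro x hx hx₁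
        have hxα : x ∈ α := (Finset.mem_insert.1 hx).resolve_left hx₁
        have hxb : x ≠ b := fun e => hbα (e ▸ hxα)
        rw [Function.update_of_ne hxb, Function.update_of_ne hx₁]
    · have hα₁ : b₁ ∈ α := (Finset.mem_insert.1 hb₁).resolve_left e
      rw [Function.update_of_ne e] at hJ
      obtain ⟨J₁, hJ₁, hJb, hJx⟩ := ih b₁ b hα₁ hSs₁ hSs hbα
        (fun d' hd' => hag d' (Finset.mem_insert_of_mem hd')) hJ
      refine ⟨_, (Cl.new s _ J₁ d b₂ hJ₁ h1 h2 h3 ?_ h5 ?_ h7).cast ?_, ?_, ?_⟩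
      · intro b' hb' hne'
        rcases hb' with hb' | hb'
        · exact h4 b' (Or.inl hb') hne'
        · rcases Finset.mem_insert.1 hb' with e' | e'
          · subst e'
            intro hon
            exact h4 b₁ (Or.inr hα₁) e ((hag d (Finset.mem_insert_self _ _)).1 hon)
          · exact h4 b' (Or.inr (Finset.mem_of_mem_erase e')) hne'
      · intro hm
        rcases Finset.mem_insert.1 hm with e' | e'
        · exact hne e'.symm
        · exact h6 (Finset.mem_of_mem_erase e')
      · rw [Finset.erase_insert_of_ne (Ne.symm e), Finset.insert_comm]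
      · rw [Function.update_of_ne hne, Function.update_of_ne e, hJb]
      · intro x hx hx₁
        by_cases hx₂ : x = b₂
        · subst hx₂
          rw [Function.update_self, Function.update_self]
        · rw [Function.update_of_ne hx₂, Function.update_of_ne hx₂]
          exact hJx x ((Finset.mem_insert.1 hx).resolve_left hx₂) hx₁
  | old s α J d b₂ h h1 h2 h3 h4 h5 h6 h7 ih =>
    intro b₁ b hb₁ hS₁ hS hb hag hJ
    have hne : b ≠ b₂ := fun e => hb (e ▸ Finset.mem_insert_self _ _)
    have hbα : b ∉ α := fun e => hb (Finset.mem_insert_of_mem e)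
    have hSs : b ∉ γ.S s := fun e => hS (hγ.S_mono s d e)
    have hSs₁ : b₁ ∉ γ.S s := fun e => hS₁ (hγ.S_mono s d e)
    have e : b₁ ≠ b₂ := fun e => hSs₁ (e ▸ h5)
    have hα₁ : b₁ ∈ α := (Finset.mem_insert.1 hb₁).resolve_left e
    rw [Function.update_of_ne e] at hJ
    obtain ⟨J₁, hJ₁, hJb, hJx⟩ := ih b₁ b hα₁ hSs₁ hSs hbα
      (fun d' hd' => hag d' (Finset.mem_insert_of_mem hd')) hJ
    refine ⟨_, (Cl.old s _ J₁ d b₂ hJ₁ h1 h2 h3 ?_ h5 ?_ h7).cast ?_, ?_, ?_⟩
    · intro b' hb' hne'
      rcases hb' with hb' | hb'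
      · exact h4 b' (Or.inl hb') hne'
      · rcases Finset.mem_insert.1 hb' with e' | e'
        · subst e'
          intro hon
          exact h4 b₁ (Or.inr hα₁) e ((hag d (Finset.mem_insert_self _ _)).1 hon)
        · exact h4 b' (Or.inr (Finset.mem_of_mem_erase e')) hne'
    · intro hm
      rcases Finset.mem_insert.1 hm with e' | e'
      · exact hne e'.symm
      · exact h6 (Finset.mem_of_mem_erase e')
    · rw [Finset.erase_insert_of_ne (Ne.symm e), Finset.insert_comm]
    · rw [Function.update_of_ne hne, Function.update_of_ne e, hJb]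
    · intro x hx hx₁
      by_cases hx₂ : x = b₂
      · subst hx₂
        rw [Function.update_self, Function.update_self]
      · rw [Function.update_of_ne hx₂, Function.update_of_ne hx₂]
        exact hJx x ((Finset.mem_insert.1 hx).resolve_left hx₂) hx₁
  | rem s α J d b₂ h h1 h2 h3 h4 h6 h7 h8 ih =>
    intro b₁ b hb₁ hS₁ hS hb hag hJ
    have hSs : b ∉ γ.S s := fun e => hS (hγ.S_mono s d e)
    have hSs₁ : b₁ ∉ γ.S s := fun e => hS₁ (hγ.S_mono s d e)
    have e : b₁ ≠ b₂ := Finset.ne_of_mem_erase hb₁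
    have hα₁ : b₁ ∈ α := Finset.mem_of_mem_erase hb₁
    have hne : b ≠ b₂ := by
      intro e'
      subst e'
      exact h4 b₁ (Or.inr hα₁) e ((hag d (Finset.mem_insert_self _ _)).1 h3)
    have hbα : b ∉ α := fun e => hb (Finset.mem_erase.2 ⟨hne, e⟩)
    obtain ⟨J₁, hJ₁, hJb, hJx⟩ := ih b₁ b hα₁ hSs₁ hSs hbα
      (fun d' hd' => hag d' (Finset.mem_insert_of_mem hd')) hJ
    refine ⟨_, (Cl.rem s _ J₁ d b₂ hJ₁ h1 h2 h3 ?_ ?_ h7 ?_).cast ?_, hJb, ?_⟩
    · intro b' hb' hne'
      rcases hb' with hb' | hb'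
      · exact h4 b' (Or.inl hb') hne'
      · rcases Finset.mem_insert.1 hb' with e' | e'
        · subst e'
          intro hon
          exact h4 b₁ (Or.inr hα₁) e ((hag d (Finset.mem_insert_self _ _)).1 hon)
        · exact h4 b' (Or.inr (Finset.mem_of_mem_erase e')) hne'
    · exact Finset.mem_insert_of_mem (Finset.mem_erase.2 ⟨Ne.symm e, h6⟩)
    · rw [hJx b₂ h6 (Ne.symm e)]
      exact h8
    · rw [Finset.erase_insert_of_ne hne, Finset.erase_right_comm]
    · intro x hx hx₁
      exact hJx x (Finset.mem_of_mem_erase hx) hx₁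
  | add s α J y h h1 h2 h3 ih =>
    intro b₁ b hb₁ hS₁ hS hb hag hJ
    have hne : b ≠ y := fun e => hb (e ▸ Finset.mem_insert_self _ _)
    have hbα : b ∉ α := fun e => hb (Finset.mem_insert_of_mem e)
    by_cases e : b₁ = y
    · subst e
      rw [Function.update_self] at hJ
      have h3' : γ.n s ≤ μ b + 1 := by
        rcases hJ with hJ | hJ
        · exact le_trans hJ (Nat.le_succ _)
        · exact hJ
      refine ⟨_, (Cl.add s α J b h hS hbα h3').cast (by rw [Finset.erase_insert h2]), ?_, ?_⟩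
      · rw [Function.update_self, Function.update_self]
      · intro x hx hx₁
        have hxα : x ∈ α := (Finset.mem_insert.1 hx).resolve_left hx₁
        have hxb : x ≠ b := fun e => hbα (e ▸ hxα)
        rw [Function.update_of_ne hxb, Function.update_of_ne hx₁]
    · have hα₁ : b₁ ∈ α := (Finset.mem_insert.1 hb₁).resolve_left e
      rw [Function.update_of_ne e] at hJ
      obtain ⟨J₁, hJ₁, hJb, hJx⟩ := ih b₁ b hα₁ hS₁ hS hbα hag hJ
      refine ⟨_, (Cl.add s _ J₁ y hJ₁ h1 ?_ h3).cast ?_, ?_, ?_⟩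
      · intro hm
        rcases Finset.mem_insert.1 hm with e' | e'
        · exact hne e'.symm
        · exact h2 (Finset.mem_of_mem_erase e')
      · rw [Finset.erase_insert_of_ne (Ne.symm e), Finset.insert_comm]
      · rw [Function.update_of_ne hne, Function.update_of_ne e, hJb]
      · intro x hx hx₁
        by_cases hx₂ : x = y
        · subst hx₂
          rw [Function.update_self, Function.update_self]
        · rw [Function.update_of_ne hx₂, Function.update_of_ne hx₂]
          exact hJx x ((Finset.mem_insert.1 hx).resolve_left hx₂) hx₁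

open scoped Classical in
theorem drop {γ : Par} (hγ : Good γ) {t : Finset Nd} {α : Finset Pt} {J : Pt → Set ℕ}
    (h : Cl μ γ t α J) : ∀ y : Pt, y ∈ α → y ∉ γ.S t → (∀ d ∈ t, d.1 + len d < μ y) →
      ∃ J', Cl μ γ t (α.erase y) J' ∧ ∀ x ∈ α, x ≠ y → J' x = J x := by
  induction h with
  | zero J => intro b₁ h; exact absurd h (Finset.notMem_empty _)
  | new s α J d b₂ h h1 h2 h3 h4 h5 h6 h7 ih =>
    intro y hy hS hd
    have hSs : y ∉ γ.S s := fun e => hS (hγ.S_mono s d e)
    have e : y ≠ b₂ := by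
      intro e
      subst e
      have h8 := hd d (Finset.mem_insert_self _ _)
      unfold InJ at h7
      omega
    have hyα : y ∈ α := (Finset.mem_insert.1 hy).resolve_left e
    obtain ⟨J₁, hJ₁, hJx⟩ := ih y hyα hSs (fun d' hd' => hd d' (Finset.mem_insert_of_mem hd'))
    refine ⟨_, (Cl.new s _ J₁ d b₂ hJ₁ h1 h2 h3 ?_ h5 ?_ h7).cast ?_, ?_⟩
    · intro b' hb' hne'
      exact h4 b' (hb'.imp id Finset.mem_of_mem_erase) hne'
    · exact fun hm => h6 (Finset.mem_of_mem_erase hm)
    · rw [Finset.erase_insert_of_ne (Ne.symm e)]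
    · intro x hx hx₁
      by_cases hx₂ : x = b₂
      · subst hx₂
        rw [Function.update_self, Function.update_self]
      · rw [Function.update_of_ne hx₂, Function.update_of_ne hx₂]
        exact hJx x ((Finset.mem_insert.1 hx).resolve_left hx₂) hx₁
  | old s α J d b₂ h h1 h2 h3 h4 h5 h6 h7 ih =>
    intro y hy hS hd
    have hSs : y ∉ γ.S s := fun e => hS (hγ.S_mono s d e)
    have e : y ≠ b₂ := fun e => hSs (e ▸ h5)
    have hyα : y ∈ α := (Finset.mem_insert.1 hy).resolve_left e
    obtain ⟨J₁, hJ₁, hJx⟩ := ih y hyα hSs (fun d' hd' => hd d' (Finset.mem_insert_of_mem hd'))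
    refine ⟨_, (Cl.old s _ J₁ d b₂ hJ₁ h1 h2 h3 ?_ h5 ?_ h7).cast ?_, ?_⟩
    · intro b' hb' hne'
      exact h4 b' (hb'.imp id Finset.mem_of_mem_erase) hne'
    · exact fun hm => h6 (Finset.mem_of_mem_erase hm)
    · rw [Finset.erase_insert_of_ne (Ne.symm e)]
    · intro x hx hx₁
      by_cases hx₂ : x = b₂
      · subst hx₂
        rw [Function.update_self, Function.update_self]
      · rw [Function.update_of_ne hx₂, Function.update_of_ne hx₂]
        exact hJx x ((Finset.mem_insert.1 hx).resolve_left hx₂) hx₁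
  | rem s α J d b₂ h h1 h2 h3 h4 h6 h7 h8 ih =>
    intro y hy hS hd
    have hSs : y ∉ γ.S s := fun e => hS (hγ.S_mono s d e)
    have e : y ≠ b₂ := Finset.ne_of_mem_erase hy
    have hyα : y ∈ α := Finset.mem_of_mem_erase hy
    obtain ⟨J₁, hJ₁, hJx⟩ := ih y hyα hSs (fun d' hd' => hd d' (Finset.mem_insert_of_mem hd'))
    refine ⟨_, (Cl.rem s _ J₁ d b₂ hJ₁ h1 h2 h3 ?_ ?_ h7 ?_).cast ?_, ?_⟩
    · intro b' hb' hne'
      exact h4 b' (hb'.imp id Finset.mem_of_mem_erase) hne'
    · exact Finset.mem_erase.2 ⟨Ne.symm e, h6⟩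
    · rw [hJx b₂ h6 (Ne.symm e)]
      exact h8
    · rw [Finset.erase_right_comm]
    · intro x hx hx₁
      exact hJx x (Finset.mem_of_mem_erase hx) hx₁
  | add s α J y₂ h h1 h2 h3 ih =>
    intro y hy hS hd
    by_cases e : y = y₂
    · subst e
      refine ⟨J, h.cast (by rw [Finset.erase_insert h2]), ?_⟩
      intro x hx hx₁
      rw [Function.update_of_ne hx₁]
    · have hyα : y ∈ α := (Finset.mem_insert.1 hy).resolve_left e
      obtain ⟨J₁, hJ₁, hJx⟩ := ih y hyα hS hd
      refine ⟨_, (Cl.add s _ J₁ y₂ hJ₁ h1 ?_ h3).cast ?_, ?_⟩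
      · exact fun hm => h2 (Finset.mem_of_mem_erase hm)
      · rw [Finset.erase_insert_of_ne (Ne.symm e)]
      · intro x hx hx₁
        by_cases hx₂ : x = y₂
        · subst hx₂
          rw [Function.update_self, Function.update_self]
        · rw [Function.update_of_ne hx₂, Function.update_of_ne hx₂]
          exact hJx x ((Finset.mem_insert.1 hx).resolve_left hx₂) hx₁

theorem insert_unique {d d' : Nd} {s T : Finset Nd} (hs : ∀ x ∈ s, len x < len d')
    (hT : ∀ x ∈ T, len x < len d) (e : insert d' s = insert d T) : d' = d ∧ s = T := by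
  have h1 : d' = d := by
    have h2 : d' ∈ insert d T := e ▸ Finset.mem_insert_self _ _
    have h3 : d ∈ insert d' s := e ▸ Finset.mem_insert_self _ _
    rcases Finset.mem_insert.1 h2 with h2 | h2
    · exact h2
    · rcases Finset.mem_insert.1 h3 with h3 | h3
      · exact h3.symm
      · have h4 := hT _ h2
        have h5 := hs _ h3
        omega
  subst h1
  refine ⟨rfl, ?_⟩
  have h2 : d' ∉ s := fun h => lt_irrefl _ (hs _ h)
  have h3 : d' ∉ T := fun h => lt_irrefl _ (hT _ h)
  rw [← Finset.erase_insert h2, e, Finset.erase_insert h3]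

open scoped Classical in
theorem back {γ : Par} (hγ : Good γ) {s₁ : Finset Nd} {α₁ : Finset Pt} {J : Pt → Set ℕ}
    (h : Cl μ γ s₁ α₁ J) : ∀ (T : Finset Nd) (d : Nd) (b : Pt) (α : Finset Pt), s₁ = insert d T →
      (∀ d' ∈ T, len d' < len d) → On d b →
      (∀ b', b' ∈ γ.S T ∨ b' ∈ α → b' ≠ b → ¬ On d b') →
      (Near μ d b ∨ (b ∉ γ.S T ∧ b ∉ α ∧ μ b ≤ d.1 + len d)) →
      (∀ x, x ∈ α₁ ↔ (x ≠ b ∧ x ∈ α) ∨ (x = b ∧ b ∉ α)) → ∃ J', Cl μ γ T α J' := by
  induction h with
  | zero J =>
    intro T d b α e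
    exact absurd (e ▸ Finset.mem_insert_self d T) (Finset.notMem_empty d)
  | new s α₂ J d₂ b₂ h h1 h2 h3 h4 h5 h6 h7 ih =>
    intro T d b α e hT hon hno hnear hx
    obtain ⟨rfl, rfl⟩ := insert_unique h1 hT e
    by_cases e' : b₂ = b
    · subst e'
      refine ⟨J, h.cast ?_⟩
      ext x
      have h8 := hx x
      have h9 := hx b₂
      rw [Finset.mem_insert] at h8 h9
      by_cases e1 : x = b₂
      · subst e1
        tauto
      · tauto
    · have h8 := (hx b₂).1 (Finset.mem_insert_self _ _)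
      rcases h8 with h8 | h8
      · exact absurd h3 (hno b₂ (Or.inr h8.2) e')
      · exact absurd h8.1 e'
  | old s α₂ J d₂ b₂ h h1 h2 h3 h4 h5 h6 h7 ih =>
    intro T d b α e hT hon hno hnear hx
    obtain ⟨rfl, rfl⟩ := insert_unique h1 hT e
    by_cases e' : b₂ = b
    · subst e'
      refine ⟨J, h.cast ?_⟩
      ext x
      have h8 := hx x
      have h9 := hx b₂
      rw [Finset.mem_insert] at h8 h9
      by_cases e1 : x = b₂
      · subst e1
        tauto
      · tauto
    · exact absurd h3 (hno b₂ (Or.inl h5) e')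
  | rem s α₂ J d₂ b₂ h h1 h2 h3 h4 h6 h7 h8 ih =>
    intro T d b α e hT hon hno hnear hx
    obtain ⟨rfl, rfl⟩ := insert_unique h1 hT e
    by_cases e' : b₂ = b
    · subst e'
      refine ⟨J, h.cast ?_⟩
      ext x
      have h9 := hx x
      have h10 := hx b₂
      rw [Finset.mem_erase] at h9 h10
      by_cases e1 : x = b₂
      · subst e1
        tauto
      · tauto
    · have hbα₂ : b ∉ α₂ := fun hm => h4 b (Or.inr hm) (Ne.symm e') hon
      have hbα : b ∈ α := by
        by_contra hn
        have := (hx b).2 (Or.inr ⟨rfl, hn⟩)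
        exact hbα₂ (Finset.mem_of_mem_erase this)
      have hbS : b ∉ γ.S s := fun hm => h4 b (Or.inl hm) (Ne.symm e') hon
      have hb₂S : b₂ ∉ γ.S s := fun hm => hno b₂ (Or.inl hm) e' h3
      have hne : Near μ d₂ b := by
        rcases hnear with hn | hn
        · exact hn
        · exact absurd hbα hn.2.1
      obtain ⟨J', hJ', -, -⟩ := replace hγ h b₂ b h6 hb₂S hbS hbα₂
        (fun d' hd' => on_iff_of_lt hon h3 (h1 d' hd').le) (by
          rcases hne with hn | hn
          · exact Or.inl (hn ▸ h8)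
          · exact Or.inr (hn ▸ h8))
      refine ⟨J', hJ'.cast ?_⟩
      ext x
      have h9 := hx x
      rw [Finset.mem_erase] at h9
      rw [Finset.mem_insert, Finset.mem_erase]
      by_cases e1 : x = b
      · subst e1
        tauto
      · tauto
  | add s α₂ J y h h1 h2 h3 ih =>
    intro T d b α e hT hon hno hnear hx
    subst e
    have hbig := hγ.big (insert d T) d (Finset.mem_insert_self _ _)
    have hyb : y ≠ b := by
      intro e'
      subst e'
      rcases hnear with hn | hn
      · rcases hn with hn | hn <;> omega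
      · omega
    have hyα : y ∈ α := by
      rcases (hx y).1 (Finset.mem_insert_self _ _) with h8 | h8
      · exact h8.2
      · exact absurd h8.1 hyb
    obtain ⟨J', hJ'⟩ := ih T d b (α.erase y) rfl hT hon
      (fun b' hb' => hno b' (hb'.imp id Finset.mem_of_mem_erase)) (by
        rcases hnear with hn | hn
        · exact Or.inl hn
        · exact Or.inr ⟨hn.1, fun hm => hn.2.1 (Finset.mem_of_mem_erase hm), hn.2.2⟩) (by
        intro x
        have h8 := hx x
        rw [Finset.mem_insert] at h8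
        rw [Finset.mem_erase, Finset.mem_erase]
        by_cases e1 : x = y
        · subst e1
          tauto
        · by_cases e2 : x = b
          · subst e2
            tauto
          · tauto)
    refine ⟨_, (Cl.add T _ J' y hJ' (fun hm => h1 (hγ.S_mono T d hm)) (Finset.notMem_erase _ _)
      ((hγ.n_mono T d).trans h3)).cast (Finset.insert_erase hyα)⟩

end Pool.Agent.Q209.SG
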