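import Pool.Agent.Q209.SG.Rel

/-!
Project SG (helper file): the Boolean group of the pairs of finite sets and its topology.
-/

set_option autoImplicit false

namespace Pool.Agent.Q209.SG

/-- The group: pairs of a finite set of nodes and a finite set of points of the Cantor set, with
symmetric differences. The parameter `μ` occurs only in the topology. -/
@[ext]
structure Grp (μ : Pt → ℕ) where
  s : Finset Nd
  a : Finset Pt

open scoped Classical in
noncomputable instance (μ : Pt → ℕ) : CommGroup (Grp μ) where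
  mul u v := ⟨symmDiff u.s v.s, symmDiff u.a v.a⟩
  one := ⟨∅, ∅⟩
  inv u := u
  mul_assoc u v w := Grp.ext (symmDiff_assoc _ _ _) (symmDiff_assoc _ _ _)
  one_mul u := Grp.ext ((symmDiff_comm _ _).trans (symmDiff_empty_right _))
    ((symmDiff_comm _ _).trans (symmDiff_empty_right _))
  mul_one u := Grp.ext (symmDiff_empty_right _) (symmDiff_empty_right _)
  inv_mul_cancel u := Grp.ext (symmDiff_self _) (symmDiff_self _)
  mul_comm u v := Grp.ext (symmDiff_comm _ _) (symmDiff_comm _ _)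

variable {μ : Pt → ℕ}

open scoped Classical in
theorem mul_s (u v : Grp μ) : (u * v).s = symmDiff u.s v.s := rfl

open scoped Classical in
theorem mul_a (u v : Grp μ) : (u * v).a = symmDiff u.a v.a := rfl

theorem sq_eq (u : Grp μ) : u * u = 1 := inv_mul_cancel u

theorem cancel (u w : Grp μ) : u * (u * w) = w := by
  rw [← mul_assoc, sq_eq, one_mul]

/-- The basic neighbourhoods of the neutral element. -/
def nb (γ : Par) : Set (Grp μ) := {w | Op μ γ w.s w.a}

theorem one_mem_nb (γ : Par) : (1 : Grp μ) ∈ nb γ := Op.zero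

open scoped Classical in
/-- The larger of two parameters. -/
noncomputable def join (γ γ' : Par) : Par where
  N s := max (γ.N s) (γ'.N s)
  n s := max (γ.n s) (γ'.n s)
  S s := γ.S s ∪ γ'.S s

open scoped Classical in
theorem nb_join (γ γ' : Par) {w : Grp μ} (h : w ∈ nb (join γ γ')) : w ∈ nb γ ∧ w ∈ nb γ' :=
  ⟨Op.mono (γ := γ) (γ' := join γ γ') ⟨fun _ => le_max_left _ _, fun _ => le_max_left _ _,
      fun _ => Finset.subset_union_left⟩ h,
    Op.mono (γ := γ') (γ' := join γ γ') ⟨fun _ => le_max_right _ _, fun _ => le_max_right _ _,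
      fun _ => Finset.subset_union_right⟩ h⟩

instance : TopologicalSpace (Grp μ) where
  IsOpen O := ∀ u ∈ O, ∃ γ : Par, ∀ w ∈ nb γ, u * w ∈ O
  isOpen_univ := fun _ _ => ⟨⟨fun _ => 0, fun _ => 0, fun _ => ∅⟩, fun _ _ => Set.mem_univ _⟩
  isOpen_inter := by
    intro O O' h h' u hu
    obtain ⟨γ, hγ⟩ := h u hu.1
    obtain ⟨γ', hγ'⟩ := h' u hu.2
    exact ⟨join γ γ', fun w hw => ⟨hγ w (nb_join γ γ' hw).1, hγ' w (nb_join γ γ' hw).2⟩⟩
  isOpen_sUnion := by
    rintro 𝒪 h u ⟨O, hO, hu⟩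
    obtain ⟨γ, hγ⟩ := h O hO u hu
    exact ⟨γ, fun w hw => ⟨O, hO, hγ w hw⟩⟩

theorem isOpen_def (O : Set (Grp μ)) :
    IsOpen O ↔ ∀ u ∈ O, ∃ γ : Par, ∀ w ∈ nb γ, u * w ∈ O := Iff.rfl

theorem nb_translate {γ : Par} {u : Grp μ} (hu : u ∈ nb γ) :
    ∃ δ : Par, ∀ w ∈ nb δ, u * w ∈ nb (μ := μ) γ :=
  ⟨shift γ u.s u.a, fun _ hw => op_translate hu hw⟩

/-- The translate of a basic neighbourhood. -/
def tr (u : Grp μ) (γ : Par) : Set (Grp μ) := {x | u * x ∈ nb γ}

theorem isOpen_tr (u : Grp μ) (γ : Par) : IsOpen (tr u γ) := by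
  intro x hx
  obtain ⟨δ, hδ⟩ := nb_translate hx
  refine ⟨δ, fun w hw => ?_⟩
  have h1 := hδ w hw
  rw [mul_assoc] at h1
  exact h1

theorem mem_tr (u : Grp μ) (γ : Par) : u ∈ tr u γ := by
  show u * u ∈ nb γ
  rw [sq_eq]
  exact one_mem_nb γ

theorem tr_subset {u : Grp μ} {γ : Par} {O : Set (Grp μ)} (h : ∀ w ∈ nb γ, u * w ∈ O) :
    tr u γ ⊆ O := by
  intro x hx
  have h1 := h _ hx
  rwa [cancel] at h1

theorem continuous_mul_left' (a : Grp μ) : Continuous fun x : Grp μ => a * x := by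
  refine ⟨fun O hO u hu => ?_⟩
  obtain ⟨γ, hγ⟩ := hO (a * u) hu
  refine ⟨γ, fun w hw => ?_⟩
  show a * (u * w) ∈ O
  rw [← mul_assoc]
  exact hγ w hw

theorem continuous_mul_right' (a : Grp μ) : Continuous fun x : Grp μ => x * a := by
  simp_rw [mul_comm _ a]
  exact continuous_mul_left' a

theorem continuous_inv' : Continuous fun x : Grp μ => x⁻¹ := continuous_id

/-- The closed set between two basic neighbourhoods. -/
def cs (u : Grp μ) (γ : Par) : Set (Grp μ) := {x | ∃ J, Cl μ γ (u * x).s (u * x).a J}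

theorem isClosed_cs (u : Grp μ) {γ : Par} (hγ : Good γ) : IsClosed (cs u γ) := by
  rw [← isOpen_compl_iff]
  intro x hx
  refine ⟨away γ (u * x).s (u * x).a, fun w hw => ?_⟩
  have h1 := cl_away hγ (μ := μ) (s₀ := (u * x).s) (α₀ := (u * x).a) hx hw
  intro h2
  apply h1
  have h3 : ∃ J, Cl μ γ (u * (x * w)).s (u * (x * w)).a J := h2
  rw [← mul_assoc] at h3
  exact h3

theorem tr_subset_cs (u : Grp μ) (γ : Par) : tr u γ ⊆ cs u γ := by
  intro x hx
  obtain ⟨J, hJ, -⟩ := Op.cl hx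
  exact ⟨J, hJ⟩

theorem cs_subset_tr (u : Grp μ) (γ : Par) : cs u (good γ) ⊆ tr u γ := by
  rintro x ⟨J, hJ⟩
  exact cl_good hJ

instance : RegularSpace (Grp μ) := by
  refine RegularSpace.of_exists_mem_nhds_isClosed_subset fun x V hV => ?_
  obtain ⟨O, hOV, hO, hxO⟩ := mem_nhds_iff.1 hV
  obtain ⟨γ, hγ⟩ := hO x hxO
  refine ⟨cs x (good γ), ?_, isClosed_cs x (good_good γ),
    ((cs_subset_tr x γ).trans (tr_subset hγ)).trans hOV⟩
  exact Filter.mem_of_superset ((isOpen_tr x (good γ)).mem_nhds (mem_tr x (good γ)))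
    (tr_subset_cs x (good γ))

/-- Constant parameters. -/
def const (N n : ℕ) : Par := ⟨fun _ => N, fun _ => n, fun _ => ∅⟩

open scoped Classical in
theorem op_const {N n : ℕ} {s : Finset Nd} {α : Finset Pt} (h : Op μ (const N n) s α) :
    (∀ d ∈ s, N < len d) ∧ (s = ∅ → ∀ y ∈ α, n ≤ μ y) := by
  induction h with
  | zero =>
    exact ⟨fun d hd => absurd hd (Finset.notMem_empty _),
      fun _ y hy => absurd hy (Finset.notMem_empty _)⟩
  | tog s α d b h h1 h2 h3 h4 h5 ih =>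
    have hd : d ∉ s := fun hm => lt_irrefl _ (h1 d hm)
    rw [symmDiff_single_of_not_mem hd]
    refine ⟨fun d' hd' => ?_, fun e => absurd e (Finset.insert_ne_empty _ _)⟩
    rcases Finset.mem_insert.1 hd' with e | e
    · subst e
      exact h2
    · exact ih.1 d' e
  | add s α y h h1 h2 h3 ih =>
    rw [symmDiff_single_of_not_mem h2]
    refine ⟨ih.1, fun e x hx => ?_⟩
    rcases Finset.mem_insert.1 hx with e' | e'
    · subst e'
      exact h3
    · exact ih.2 e x e'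

theorem exists_not_mem {v : Grp μ} (hv : v ≠ 1) : ∃ γ : Par, v ∉ nb γ := by
  refine ⟨const (v.s.sup len) (v.a.sup μ + 1), fun h => hv ?_⟩
  obtain ⟨h1, h2⟩ := op_const h
  have hs : v.s = ∅ := by
    rw [Finset.eq_empty_iff_forall_notMem]
    intro d hd
    have h3 := h1 d hd
    have h4 : len d ≤ v.s.sup len := Finset.le_sup hd
    omega
  have ha : v.a = ∅ := by
    rw [Finset.eq_empty_iff_forall_notMem]
    intro y hy
    have h3 := h2 hs y hy
    have h4 : μ y ≤ v.a.sup μ := Finset.le_sup hy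
    omega
  exact Grp.ext hs ha

instance : T1Space (Grp μ) := by
  rw [t1Space_iff_exists_open]
  intro x y hxy
  have h1 : x * y ≠ 1 := by
    intro h
    apply hxy
    have h2 : x = y⁻¹ := eq_inv_of_mul_eq_one_left h
    exact h2
  obtain ⟨γ, hγ⟩ := exists_not_mem h1
  exact ⟨tr x γ, isOpen_tr x γ, mem_tr x γ, hγ⟩

instance : T3Space (Grp μ) where

theorem exists_diff (F : Finset Pt) (b : Pt) : ∃ k₀ : ℕ, ∀ k ≥ k₀, ∀ b' ∈ F, b' ≠ b →
    res b' k ≠ res b k := by
  classical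
  have h1 : ∀ b' : Pt, ∃ i : ℕ, b' ≠ b → b' i ≠ b i := by
    intro b'
    by_cases e : b' = b
    · exact ⟨0, fun h => absurd e h⟩
    · obtain ⟨i, hi⟩ := Function.ne_iff.1 e
      exact ⟨i, fun _ => hi⟩
  choose i hi using h1
  refine ⟨F.sup i + 1, fun k hk b' hb' hne he => ?_⟩
  have h2 : i b' ≤ F.sup i := Finset.le_sup hb'
  exact hi b' hne ((res_eq_iff b' b k).1 he (i b') (by omega))

/-- The elements of the group given by one node. -/
def nd (μ : Pt → ℕ) (d : Nd) : Grp μ := ⟨{d}, ∅⟩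

/-- The elements of the group given by one point. -/
def pt (μ : Pt → ℕ) (b : Pt) : Grp μ := ⟨∅, {b}⟩

/-- The elements of the group given by a node and a point. -/
def pr (μ : Pt → ℕ) (d : Nd) (b : Pt) : Grp μ := ⟨{d}, {b}⟩

theorem pr_mem_nb (γ : Par) (b : Pt) : ∃ k₀ : ℕ, ∀ k ≥ k₀, ∀ m : ℕ, (m = μ b ∨ m = μ b + 1) →
    pr μ (m, res b k) b ∈ nb γ := by
  classical
  obtain ⟨k₀, hk₀⟩ := exists_diff (γ.S ∅) b
  refine ⟨max k₀ (γ.N ∅ + 1), fun k hk m hm => ?_⟩
  have hk1 : k₀ ≤ k := le_trans (le_max_left _ _) hk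
  have hk2 : γ.N ∅ + 1 ≤ k := le_trans (le_max_right _ _) hk
  have hl : len ((m, res b k) : Nd) = k := res_length b k
  have h1 : Op μ γ (symmDiff (∅ : Finset Nd) {(m, res b k)}) (symmDiff (∅ : Finset Pt) {b}) := by
    refine Op.tog ∅ ∅ (m, res b k) b Op.zero (fun d' hd' => absurd hd' (Finset.notMem_empty _))
      (by rw [hl]; omega) (on_res b m k) ?_ (Or.inl hm)
    intro b' hb' hne hon
    rcases hb' with hb' | hb'
    · refine hk₀ k hk1 b' hb' hne ?_
      have h2 : res b' (len ((m, res b k) : Nd)) = res b k := hon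
      rwa [hl] at h2
    · exact absurd hb' (Finset.notMem_empty _)
  have e1 : symmDiff (∅ : Finset Nd) {(m, res b k)} = {(m, res b k)} :=
    (symmDiff_comm _ _).trans (symmDiff_empty_right _)
  have e2 : symmDiff (∅ : Finset Pt) {b} = {b} :=
    (symmDiff_comm _ _).trans (symmDiff_empty_right _)
  exact h1.cast e1 e2

theorem pt_mul_pr (d : Nd) (b : Pt) : pt μ b * pr μ d b = nd μ d := by
  classical
  refine Grp.ext ?_ ?_
  · rw [mul_s]
    exact (symmDiff_comm _ _).trans (symmDiff_empty_right _)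
  · rw [mul_a]
    exact symmDiff_self _

/-- The nodes converge to the points. -/
theorem nd_mem {O : Set (Grp μ)} (hO : IsOpen O) {b : Pt} (hb : pt μ b ∈ O) :
    ∃ k₀ : ℕ, ∀ k ≥ k₀, ∀ m : ℕ, (m = μ b ∨ m = μ b + 1) → nd μ (m, res b k) ∈ O := by
  obtain ⟨γ, hγ⟩ := hO _ hb
  obtain ⟨k₀, hk₀⟩ := pr_mem_nb (μ := μ) γ b
  refine ⟨k₀, fun k hk m hm => ?_⟩
  have h1 := hγ _ (hk₀ k hk m hm)
  rwa [pt_mul_pr] at h1

/-- The points converge to the neutral element. -/
theorem pt_mem {O : Set (Grp μ)} (hO : IsOpen O) (h1 : (1 : Grp μ) ∈ O) :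
    ∃ (n : ℕ) (F : Finset Pt), ∀ y : Pt, y ∉ F → n ≤ μ y → pt μ y ∈ O := by
  classical
  obtain ⟨γ, hγ⟩ := hO _ h1
  refine ⟨γ.n ∅, γ.S ∅, fun y hy hn => ?_⟩
  have h2 : Op μ γ ∅ (symmDiff (∅ : Finset Pt) {y}) :=
    Op.add ∅ ∅ y Op.zero hy (Finset.notMem_empty _) hn
  have e2 : symmDiff (∅ : Finset Pt) {y} = {y} :=
    (symmDiff_comm _ _).trans (symmDiff_empty_right _)
  have h3 : pt μ y ∈ nb (μ := μ) γ := h2.cast rfl e2
  have h4 := hγ _ h3
  rwa [one_mul] at h4

/-- The neutral element is not in the closure of the points of the block `0`. -/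
theorem one_not_mem : (1 : Grp μ) ∉ closure {x | ∃ b : Pt, μ b = 0 ∧ x = pt μ b} := by
  intro h
  rw [mem_closure_iff] at h
  obtain ⟨x, hx, b, hb, rfl⟩ := h (nb (const 0 1)) (by
    have h1 := isOpen_tr (1 : Grp μ) (const 0 1)
    have h2 : tr (1 : Grp μ) (const 0 1) = nb (const 0 1) := by
      ext x
      show (1 : Grp μ) * x ∈ nb (const 0 1) ↔ x ∈ nb (const 0 1)
      rw [one_mul]
    rwa [h2] at h1) (one_mem_nb _)
  have h1 := (op_const hx).2 rfl b (Finset.mem_singleton_self b)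
  omega

theorem exists_countable (n : ℕ) : ∀ (u : Grp μ), u.a.card = n → ∀ γ : Par,
    ∃ w ∈ nb (μ := μ) γ, (u * w).a = ∅ := by
  classical
  induction n with
  | zero =>
    intro u hu γ
    refine ⟨1, one_mem_nb γ, ?_⟩
    rw [mul_one]
    exact Finset.card_eq_zero.1 hu
  | succ n ih =>
    intro u hu γ
    obtain ⟨b, hb⟩ : u.a.Nonempty := by
      rw [← Finset.card_pos]
      omega
    obtain ⟨k₀, hk₀⟩ := pr_mem_nb (μ := μ) γ b
    have h1 := hk₀ k₀ le_rfl (μ b) (Or.inl rfl)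
    obtain ⟨δ, hδ⟩ := nb_translate h1
    have h2 : (u * pr μ (μ b, res b k₀) b).a.card = n := by
      rw [mul_a]
      have e : symmDiff u.a (pr μ (μ b, res b k₀) b).a = u.a.erase b := symmDiff_single_of_mem hb
      rw [e, Finset.card_erase_of_mem hb]
      omega
    obtain ⟨w, hw, hw2⟩ := ih _ h2 δ
    refine ⟨pr μ (μ b, res b k₀) b * w, hδ w hw, ?_⟩
    rw [← mul_assoc]
    exact hw2

instance : TopologicalSpace.SeparableSpace (Grp μ) := by
  refine ⟨⟨{u | u.a = ∅}, ?_, ?_⟩⟩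
  · have h1 : {u : Grp μ | u.a = ∅} ⊆ Set.range (fun s : Finset Nd => (⟨s, ∅⟩ : Grp μ)) := by
      intro u hu
      exact ⟨u.s, Grp.ext rfl (Eq.symm hu)⟩
    exact (Set.countable_range _).mono h1
  · rw [dense_iff_inter_open]
    rintro O hO ⟨u, hu⟩
    obtain ⟨γ, hγ⟩ := hO u hu
    obtain ⟨w, hw, hw2⟩ := exists_countable _ u rfl γ
    exact ⟨u * w, hγ w hw, hw2⟩

end Pool.Agent.Q209.SG
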