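import Pool.Agent.Q209.SG.Mu

/-!
Project SG (helper file): the group is not completely regular.
-/

set_option autoImplicit false

namespace Pool.Agent.Q209.SG

theorem step {f : Grp mu → ℝ} (hf : Continuous f) (hf1 : ∀ x, f x ≤ 1) (m : ℕ) {R : Set Pt}
    (hR : R ∈ residual Pt) (h : ∀ x ∈ R, mu x = m → f (pt mu x) = 1) :
    ∃ R' ∈ residual Pt, ∀ x ∈ R', mu x = m + 1 → f (pt mu x) = 1 := by
  let W : ℕ × ℕ → Set Pt := fun p =>
    {x | ∃ k ≥ p.2, 1 - 1 / ((p.1 : ℝ) + 1) < f (nd mu (m + 1, res x k))}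
  have hopen : ∀ p, IsOpen (W p) := by
    intro p
    rw [isOpen_iff_mem_nhds]
    rintro x ⟨k, hk, hx⟩
    refine Filter.mem_of_superset ((PiNat.isOpen_cylinder (fun _ => Bool) x k).mem_nhds
      (PiNat.self_mem_cylinder x k)) ?_
    intro y hy
    refine ⟨k, hk, ?_⟩
    have h1 : res y k = res x k := (res_eq_iff y x k).2 hy
    rw [h1]
    exact hx
  have hdense : ∀ p, Dense (W p) := by
    intro p
    rw [dense_iff_inter_open]
    rintro O hO ⟨x₀, hx₀⟩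
    obtain ⟨V, ⟨z, k, rfl⟩, hxV, hVO⟩ :=
      (PiNat.isTopologicalBasis_cylinders (fun _ => Bool)).exists_subset_of_mem_open hx₀ hO
    obtain ⟨x, hxR, hxm, hxk⟩ := exists_mem hR m z k
    refine ⟨x, hVO hxk, ?_⟩
    have h2 : IsOpen {u : Grp mu | 1 - 1 / ((p.1 : ℝ) + 1) < f u} :=
      isOpen_lt continuous_const hf
    have h3 : pt mu x ∈ {u : Grp mu | 1 - 1 / ((p.1 : ℝ) + 1) < f u} := by
      show 1 - 1 / ((p.1 : ℝ) + 1) < f (pt mu x)
      rw [h x hxR hxm]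
      have : 0 < 1 / ((p.1 : ℝ) + 1) := by positivity
      linarith
    obtain ⟨k₀, hk₀⟩ := nd_mem h2 h3
    exact ⟨max p.2 k₀, le_max_left _ _,
      hk₀ (max p.2 k₀) (le_max_right _ _) (m + 1) (Or.inr (by rw [hxm]))⟩
  refine ⟨⋂ p, W p, countable_iInter_mem.2 fun p => residual_of_dense_open (hopen p) (hdense p),
    fun x hx hxm => ?_⟩
  by_contra hne
  have h1 : f (pt mu x) < 1 := lt_of_le_of_ne (hf1 _) hne
  obtain ⟨j, hj⟩ := exists_nat_one_div_lt (sub_pos.2 h1)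
  have h2 : IsOpen {u : Grp mu | f u < 1 - 1 / ((j : ℝ) + 1)} := isOpen_lt hf continuous_const
  have h3 : pt mu x ∈ {u : Grp mu | f u < 1 - 1 / ((j : ℝ) + 1)} := by
    show f (pt mu x) < 1 - 1 / ((j : ℝ) + 1)
    linarith
  obtain ⟨k₀, hk₀⟩ := nd_mem h2 h3
  obtain ⟨k, hk, hlt⟩ := Set.mem_iInter.1 hx (j, k₀)
  have h4 : f (nd mu (m + 1, res x k)) < 1 - 1 / ((j : ℝ) + 1) :=
    hk₀ k hk (m + 1) (Or.inl hxm.symm)
  exact lt_asymm hlt h4

theorem not_completelyRegular : ¬ CompletelyRegularSpace (Grp mu) := by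
  intro h
  obtain ⟨f, hf, hf1, hfF⟩ := h.completely_regular 1 _ isClosed_closure (one_not_mem (μ := mu))
  let g : Grp mu → ℝ := fun x => (f x : ℝ)
  have hg : Continuous g := continuous_subtype_val.comp hf
  have hg1 : ∀ x, g x ≤ 1 := fun x => (f x).2.2
  have hR : ∀ m : ℕ, ∃ R ∈ residual Pt, ∀ x ∈ R, mu x = m → g (pt mu x) = 1 := by
    intro m
    induction m with
    | zero =>
      refine ⟨Set.univ, Filter.univ_mem, fun x _ hx => ?_⟩
      have h1 : pt mu x ∈ closure {x | ∃ b : Pt, mu b = 0 ∧ x = pt mu b} :=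
        subset_closure ⟨x, hx, rfl⟩
      have h2 := hfF h1
      show ((f (pt mu x) : unitInterval) : ℝ) = 1
      rw [h2]
      rfl
    | succ m ih =>
      obtain ⟨R, hR, h⟩ := ih
      exact step hg hg1 m hR h
  have h2 : IsOpen {u : Grp mu | g u < 1} := isOpen_lt hg continuous_const
  have h3 : (1 : Grp mu) ∈ {u : Grp mu | g u < 1} := by
    show ((f 1 : unitInterval) : ℝ) < 1
    rw [hf1]
    exact zero_lt_one
  obtain ⟨n, F, hF⟩ := pt_mem h2 h3
  obtain ⟨R, hRr, hRn⟩ := hR n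
  obtain ⟨b, hb⟩ := Infinite.exists_notMem_finset F
  obtain ⟨k₀, hk₀⟩ := exists_diff F b
  obtain ⟨y, hyR, hyn, hyk⟩ := exists_mem hRr n b k₀
  have hyF : y ∉ F := by
    intro hy
    refine hk₀ k₀ le_rfl y hy (fun e => hb (e ▸ hy)) ((res_eq_iff y b k₀).2 hyk)
  have h4 : g (pt mu y) < 1 := hF y hyF hyn.ge
  rw [hRn y hyR hyn] at h4
  exact lt_irrefl _ h4

end Pool.Agent.Q209.SG
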