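import Pool.Agent.Q209.SG.Grp

/-!
Project SG (helper file): a partition of the Cantor set into countably many sets which meet every
residual set in every open set.
-/

set_option autoImplicit false

namespace Pool.Agent.Q209.SG

/-- Eventual equality of points of the Cantor set. -/
def evEq : Setoid Pt where
  r x y := ∃ k : ℕ, ∀ i ≥ k, x i = y i
  iseqv := by
    refine ⟨fun x => ⟨0, fun _ _ => rfl⟩, ?_, ?_⟩
    · rintro x y ⟨k, hk⟩
      exact ⟨k, fun i hi => (hk i hi).symm⟩
    · rintro x y z ⟨k, hk⟩ ⟨l, hl⟩
      exact ⟨max k l, fun i hi => (hk i (le_trans (le_max_left _ _) hi)).trans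
        (hl i (le_trans (le_max_right _ _) hi))⟩

/-- The chosen element of the class of `x`. -/
noncomputable def rep (x : Pt) : Pt := Quotient.out (Quotient.mk evEq x)

theorem rep_eq (x : Pt) : ∃ k : ℕ, ∀ i ≥ k, rep x i = x i :=
  Quotient.exact (Quotient.out_eq (Quotient.mk evEq x))

theorem rep_congr {x y : Pt} (h : ∃ k : ℕ, ∀ i ≥ k, x i = y i) : rep x = rep y := by
  have h1 : Quotient.mk evEq x = Quotient.mk evEq y := Quotient.sound h
  rw [rep, rep, h1]

/-- The largest place where `x` and the chosen element of its class differ. -/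
noncomputable def last (x : Pt) : ℕ := sSup {i | x i ≠ rep x i}

/-- The number of the set of the partition which contains `x`. -/
noncomputable def mu (x : Pt) : ℕ := (Nat.unpair (last x)).2

/-- The change of finitely many bits. -/
def flip (e : Finset ℕ) : Pt → Pt := fun x i => xor (x i) (decide (i ∈ e))

theorem flip_flip (e : Finset ℕ) (x : Pt) : flip e (flip e x) = x := by
  ext i
  simp [flip]

theorem continuous_flip (e : Finset ℕ) : Continuous (flip e) := by
  refine continuous_pi fun i => ?_
  exact (continuous_of_discreteTopology (f := fun b : Bool => xor b (decide (i ∈ e)))).comp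
    (continuous_apply i)

/-- The change of finitely many bits is a homeomorphism. -/
def flipHomeo (e : Finset ℕ) : Pt ≃ₜ Pt where
  toFun := flip e
  invFun := flip e
  left_inv := flip_flip e
  right_inv := flip_flip e
  continuous_toFun := continuous_flip e
  continuous_invFun := continuous_flip e

theorem flip_residual {R : Set Pt} (hR : R ∈ residual Pt) (e : Finset ℕ) :
    flip e ⁻¹' R ∈ residual Pt := by
  have h1 := Homeomorph.residual_map_eq (flipHomeo e)
  have h2 : R ∈ (residual Pt).map (flipHomeo e) := by
    rw [h1]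
    exact hR
  exact h2

theorem exists_flip {x z : Pt} (h : ∃ k : ℕ, ∀ i ≥ k, x i = z i) : ∃ e : Finset ℕ, x = flip e z := by
  obtain ⟨k, hk⟩ := h
  refine ⟨(Finset.range k).filter fun i => x i ≠ z i, ?_⟩
  ext i
  rw [flip]
  by_cases hi : x i = z i
  · simp [hi]
  · have h1 : i < k := by
      by_contra hc
      exact hi (hk i (not_lt.1 hc))
    simp only [Finset.mem_filter, Finset.mem_range, h1, true_and, ne_eq, hi, not_false_eq_true,
      decide_true, Bool.xor_true]
    cases hx : x i <;> cases hz : z i <;> simp_all

/-- Every residual set has in every cylinder a point of the set with the number `m`. -/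
theorem exists_mem {R : Set Pt} (hR : R ∈ residual Pt) (m : ℕ) (x₀ : Pt) (k : ℕ) :
    ∃ x ∈ R, mu x = m ∧ ∀ i < k, x i = x₀ i := by
  classical
  have h1 : (⋂ e : Finset ℕ, flip e ⁻¹' R) ∈ residual Pt :=
    countable_iInter_mem.2 fun e => flip_residual hR e
  obtain ⟨z, hz⟩ := (dense_of_mem_residual h1).nonempty
  let p : ℕ := Nat.pair k m
  have hp : k ≤ p := Nat.left_le_pair k m
  let x : Pt := fun i => if i < k then x₀ i else if i = p then !(rep z i) else rep z i
  have hxk : ∀ i > p, x i = rep z i := by
    intro i hi
    have h2 : ¬ i < k := by omega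
    have h3 : i ≠ p := by omega
    simp only [x, h2, h3, if_false]
  have hxz : ∃ k' : ℕ, ∀ i ≥ k', x i = z i := by
    obtain ⟨l, hl⟩ := rep_eq z
    refine ⟨max l (p + 1), fun i hi => ?_⟩
    have h2 : l ≤ i := le_trans (le_max_left _ _) hi
    have h3 : p + 1 ≤ i := le_trans (le_max_right _ _) hi
    rw [hxk i (by omega), hl i h2]
  obtain ⟨e, he⟩ := exists_flip hxz
  have hrep : rep x = rep z := rep_congr hxz
  have hxp : x p ≠ rep x p := by
    rw [hrep]
    have h2 : ¬ p < k := by omega
    simp only [x, h2, if_false, if_true]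
    cases rep z p <;> simp
  have hlast : last x = p := by
    refine le_antisymm ?_ ?_
    · refine csSup_le ⟨p, hxp⟩ ?_
      intro i hi
      by_contra hc
      apply hi
      rw [hrep]
      exact hxk i (not_le.1 hc)
    · refine le_csSup ⟨p, ?_⟩ hxp
      intro i hi
      by_contra hc
      apply hi
      rw [hrep]
      exact hxk i (not_le.1 hc)
  refine ⟨x, ?_, ?_, ?_⟩
  · rw [he]
    exact Set.mem_iInter.1 hz e
  · rw [mu, hlast]
    show (Nat.unpair (Nat.pair k m)).2 = m
    rw [Nat.unpair_pair]
  · intro i hi
    simp only [x, hi, if_true]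

end Pool.Agent.Q209.SG
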