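import Pool.Agent.Q209.SG.Def

/-!
Project SG (helper file): the relations between the open and the closed system.
-/

set_option autoImplicit false

namespace Pool.Agent.Q209.SG

variable {μ : Pt → ℕ}

theorem Op.cast {γ : Par} {s s' : Finset Nd} {α α' : Finset Pt} (h : Op μ γ s α) (e₁ : s = s')
    (e : α = α') : Op μ γ s' α' := e₁ ▸ e ▸ h

theorem inJ_of_near {N : ℕ} {d : Nd} {b : Pt} (h : Near μ d b) (hN : N < len d) :
    InJ N d (μ b) ∧ InJ N d (μ b + 1) := by
  unfold InJ
  rcases h with h | h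
  · omega
  · omega

theorem symmDiff_single_of_not_mem {X : Type} [DecidableEq X] {s : Finset X} {x : X} (h : x ∉ s) :
    symmDiff s {x} = insert x s := by
  ext y
  rw [Finset.mem_symmDiff, Finset.mem_insert, Finset.mem_singleton]
  by_cases e : y = x
  · subst e
    tauto
  · tauto

theorem symmDiff_single_of_mem {X : Type} [DecidableEq X] {s : Finset X} {x : X} (h : x ∈ s) :
    symmDiff s {x} = s.erase x := by
  ext y
  rw [Finset.mem_symmDiff, Finset.mem_erase, Finset.mem_singleton]
  by_cases e : y = x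
  · subst e
    tauto
  · tauto

theorem symmDiff_empty_right {X : Type} [DecidableEq X] (s : Finset X) :
    symmDiff s (∅ : Finset X) = s := by
  ext y
  rw [Finset.mem_symmDiff]
  simp

/-- The set of parameters is directed. -/
structure Par.le (γ γ' : Par) : Prop where
  N_le : ∀ s, γ.N s ≤ γ'.N s
  n_le : ∀ s, γ.n s ≤ γ'.n s
  S_le : ∀ s, γ.S s ⊆ γ'.S s

theorem Op.mono {γ γ' : Par} (hle : γ.le γ') {s : Finset Nd} {α : Finset Pt} (h : Op μ γ' s α) :
    Op μ γ s α := by
  induction h with
  | zero => exact Op.zero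
  | tog s α d b h h1 h2 h3 h4 h5 ih =>
    refine Op.tog s α d b ih h1 (lt_of_le_of_lt (hle.N_le s) h2) h3 ?_ ?_
    · intro b' hb' hne
      exact h4 b' (hb'.imp (fun hm => hle.S_le s hm) id) hne
    · rcases h5 with h5 | ⟨h5, h6, h7, h8⟩
      · exact Or.inl h5
      · refine Or.inr ⟨fun hm => h5 (hle.S_le s hm), h6, ?_, ?_⟩
        · have := hle.N_le s
          unfold InJ at h7 ⊢
          omega
        · have := hle.N_le s
          unfold InJ at h8 ⊢
          omega
  | add s α y h h1 h2 h3 ih =>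
    exact Op.add s α y ih (fun hm => h1 (hle.S_le s hm)) h2 ((hle.n_le s).trans h3)

open scoped Classical in
/-- The open system is contained in the closed system. -/
theorem Op.cl {γ : Par} {s : Finset Nd} {α : Finset Pt} (h : Op μ γ s α) :
    ∃ J, Cl μ γ s α J ∧ ∀ b ∈ α, μ b ∈ J b ∧ μ b + 1 ∈ J b := by
  induction h with
  | zero => exact ⟨fun _ => ∅, Cl.zero _, fun b hb => absurd hb (Finset.notMem_empty _)⟩
  | tog s α d b h h1 h2 h3 h4 h5 ih =>
    obtain ⟨J, hJ, hJα⟩ := ih
    have hd : d ∉ s := fun hm => lt_irrefl _ (h1 d hm)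
    rw [symmDiff_single_of_not_mem hd]
    by_cases hb : b ∈ α
    · rw [symmDiff_single_of_mem hb]
      have hn : Near μ d b := by
        rcases h5 with h5 | h5
        · exact h5
        · exact absurd hb h5.2.1
      refine ⟨J, Cl.rem s α J d b hJ h1 h2 h3 h4 hb hn ?_, fun b' hb' =>
        hJα b' (Finset.mem_of_mem_erase hb')⟩
      rcases hn with hn | hn
      · exact hn ▸ (hJα b hb).1
      · exact hn ▸ (hJα b hb).2
    · rw [symmDiff_single_of_not_mem hb]
      by_cases hS : b ∈ γ.S s
      · have hn : Near μ d b := by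
          rcases h5 with h5 | h5
          · exact h5
          · exact absurd hS h5.1
        refine ⟨_, Cl.old s α J d b hJ h1 h2 h3 h4 hS hb hn, ?_⟩
        intro b' hb'
        by_cases e : b' = b
        · subst e
          rw [Function.update_self]
          exact ⟨Set.mem_univ _, Set.mem_univ _⟩
        · rw [Function.update_of_ne e]
          exact hJα b' ((Finset.mem_insert.1 hb').resolve_left e)
      · have hn : InJ (γ.N s) d (μ b) ∧ InJ (γ.N s) d (μ b + 1) := by
          rcases h5 with h5 | h5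
          · exact inJ_of_near h5 h2
          · exact h5.2.2
        refine ⟨_, Cl.new s α J d b hJ h1 h2 h3 h4 hS hb (Or.inl hn.1), ?_⟩
        intro b' hb'
        by_cases e : b' = b
        · subst e
          rw [Function.update_self]
          exact hn
        · rw [Function.update_of_ne e]
          exact hJα b' ((Finset.mem_insert.1 hb').resolve_left e)
  | add s α y h h1 h2 h3 ih =>
    obtain ⟨J, hJ, hJα⟩ := ih
    rw [symmDiff_single_of_not_mem h2]
    refine ⟨_, Cl.add s α J y hJ h1 h2 (h3.trans (Nat.le_succ _)), ?_⟩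
    intro b' hb'
    by_cases e : b' = y
    · subst e
      rw [Function.update_self]
      exact ⟨h3, h3.trans (Nat.le_succ _)⟩
    · rw [Function.update_of_ne e]
      exact hJα b' ((Finset.mem_insert.1 hb').resolve_left e)

open scoped Classical in
/-- The closed system is contained in the open system of smaller parameters. -/
theorem Cl.op {γ γ' : Par} (hN : ∀ s, γ.N s + 1 ≤ γ'.N s) (hn : ∀ s, γ.n s + 1 ≤ γ'.n s)
    (hS : ∀ s, γ.S s ⊆ γ'.S s) {s : Finset Nd} {α : Finset Pt} {J : Pt → Set ℕ}
    (h : Cl μ γ' s α J) : Op μ γ s α := by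
  induction h with
  | zero => exact Op.zero
  | new s α J d b h h1 h2 h3 h4 h5 h6 h7 ih =>
    have hd : d ∉ s := fun hm => lt_irrefl _ (h1 d hm)
    rw [← symmDiff_single_of_not_mem hd, ← symmDiff_single_of_not_mem h6]
    have h8 := hN s
    refine Op.tog s α d b ih h1 (by omega) h3 (fun b' hb' =>
      h4 b' (hb'.imp (fun hm => hS s hm) id)) (Or.inr ⟨fun hm => h5 (hS s hm), h6, ?_⟩)
    unfold InJ at h7 ⊢
    omega
  | old s α J d b h h1 h2 h3 h4 h5 h6 h7 ih =>
    have hd : d ∉ s := fun hm => lt_irrefl _ (h1 d hm)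
    rw [← symmDiff_single_of_not_mem hd, ← symmDiff_single_of_not_mem h6]
    have h8 := hN s
    exact Op.tog s α d b ih h1 (by omega) h3 (fun b' hb' =>
      h4 b' (hb'.imp (fun hm => hS s hm) id)) (Or.inl h7)
  | rem s α J d b h h1 h2 h3 h4 h6 h7 h8 ih =>
    have hd : d ∉ s := fun hm => lt_irrefl _ (h1 d hm)
    rw [← symmDiff_single_of_not_mem hd, ← symmDiff_single_of_mem h6]
    have h8 := hN s
    exact Op.tog s α d b ih h1 (by omega) h3 (fun b' hb' =>
      h4 b' (hb'.imp (fun hm => hS s hm) id)) (Or.inl h7)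
  | add s α J y h h1 h2 h3 ih =>
    rw [← symmDiff_single_of_not_mem h2]
    have h8 := hn s
    exact Op.add s α y ih (fun hm => h1 (hS s hm)) h2 (by omega)

/-- The translated parameters. -/
noncomputable def shift (γ : Par) (s₀ : Finset Nd) (α₀ : Finset Pt) : Par where
  N t := max (γ.N (symmDiff s₀ t)) (s₀.sup len)
  n t := γ.n (symmDiff s₀ t)
  S t := open scoped Classical in γ.S (symmDiff s₀ t) ∪ α₀

open scoped Classical in
theorem op_translate {γ : Par} {s₀ : Finset Nd} {α₀ : Finset Pt} (h₀ : Op μ γ s₀ α₀)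
    {t : Finset Nd} {β : Finset Pt} (h : Op μ (shift γ s₀ α₀) t β) :
    Op μ γ (symmDiff s₀ t) (symmDiff α₀ β) := by
  induction h with
  | zero => exact h₀.cast (symmDiff_empty_right s₀).symm (symmDiff_empty_right α₀).symm
  | tog t β d b h h1 h2 h3 h4 h5 ih =>
    have hN : (shift γ s₀ α₀).N t = max (γ.N (symmDiff s₀ t)) (s₀.sup len) := rfl
    have hSm : ∀ x, x ∈ γ.S (symmDiff s₀ t) ∨ x ∈ α₀ → x ∈ (shift γ s₀ α₀).S t := fun x hx =>
      Finset.mem_union.2 hx
    rw [hN, max_lt_iff] at h2
    rw [← symmDiff_assoc, ← symmDiff_assoc]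
    refine Op.tog _ _ d b ih ?_ h2.1 h3 ?_ ?_
    · intro d' hd'
      rcases Finset.mem_symmDiff.1 hd' with hd' | hd'
      · exact lt_of_le_of_lt (Finset.le_sup hd'.1) h2.2
      · exact h1 d' hd'.1
    · intro b' hb' hne
      refine h4 b' ?_ hne
      rcases hb' with hb' | hb'
      · exact Or.inl (hSm b' (Or.inl hb'))
      · rcases Finset.mem_symmDiff.1 hb' with hb' | hb'
        · exact Or.inl (hSm b' (Or.inr hb'.1))
        · exact Or.inr hb'.1
    · rcases h5 with h5 | ⟨h5, h6, h7, h8⟩
      · exact Or.inl h5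
      · refine Or.inr ⟨fun hm => h5 (hSm b (Or.inl hm)), fun hm => ?_, ?_, ?_⟩
        · rcases Finset.mem_symmDiff.1 hm with hm | hm
          · exact h5 (hSm b (Or.inr hm.1))
          · exact h6 hm.1
        · rw [hN] at h7
          have := le_max_left (γ.N (symmDiff s₀ t)) (s₀.sup len)
          unfold InJ at h7 ⊢
          omega
        · rw [hN] at h8
          have := le_max_left (γ.N (symmDiff s₀ t)) (s₀.sup len)
          unfold InJ at h8 ⊢
          omega
  | add t β y h h1 h2 h3 ih =>
    have hSm : ∀ x, x ∈ γ.S (symmDiff s₀ t) ∨ x ∈ α₀ → x ∈ (shift γ s₀ α₀).S t := fun x hx =>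
      Finset.mem_union.2 hx
    rw [← symmDiff_assoc]
    refine Op.add _ _ y ih (fun hm => h1 (hSm y (Or.inl hm))) (fun hm => ?_) h3
    rcases Finset.mem_symmDiff.1 hm with hm | hm
    · exact h1 (hSm y (Or.inr hm.1))
    · exact h2 hm.1

/-- Parameters of a neighbourhood which does not meet the closed set. -/
noncomputable def away (γ : Par) (s₀ : Finset Nd) (α₀ : Finset Pt) : Par where
  N _ := s₀.sup len
  n t := (symmDiff s₀ t).sup (fun d => d.1 + len d) + 1
  S t := open scoped Classical in γ.S (symmDiff s₀ t) ∪ α₀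

open scoped Classical in
theorem cl_away {γ : Par} (hγ : Good γ) {s₀ : Finset Nd} {α₀ : Finset Pt}
    (h₀ : ¬ ∃ J, Cl μ γ s₀ α₀ J) {t : Finset Nd} {β : Finset Pt} (h : Op μ (away γ s₀ α₀) t β) :
    ¬ ∃ J, Cl μ γ (symmDiff s₀ t) (symmDiff α₀ β) J := by
  induction h with
  | zero =>
    intro ⟨J, hJ⟩
    refine h₀ ⟨J, ?_⟩
    rwa [symmDiff_empty_right, symmDiff_empty_right] at hJ
  | tog t β d b h h1 h2 h3 h4 h5 ih =>
    intro ⟨J, hJ⟩
    apply ih
    have hN : (away γ s₀ α₀).N t = s₀.sup len := rfl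
    have hSm : ∀ x, x ∈ γ.S (symmDiff s₀ t) ∨ x ∈ α₀ → x ∈ (away γ s₀ α₀).S t := fun x hx =>
      Finset.mem_union.2 hx
    rw [hN] at h2
    have hT : ∀ d' ∈ symmDiff s₀ t, len d' < len d := by
      intro d' hd'
      rcases Finset.mem_symmDiff.1 hd' with hd' | hd'
      · exact lt_of_le_of_lt (Finset.le_sup hd'.1) h2
      · exact h1 d' hd'.1
    have hdT : d ∉ symmDiff s₀ t := fun hm => lt_irrefl _ (hT d hm)
    rw [← symmDiff_assoc, ← symmDiff_assoc, symmDiff_single_of_not_mem hdT] at hJ
    refine back hγ hJ (symmDiff s₀ t) d b (symmDiff α₀ β) rfl hT h3 ?_ ?_ ?_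
    · intro b' hb' hne
      refine h4 b' ?_ hne
      rcases hb' with hb' | hb'
      · exact Or.inl (hSm b' (Or.inl hb'))
      · rcases Finset.mem_symmDiff.1 hb' with hb' | hb'
        · exact Or.inl (hSm b' (Or.inr hb'.1))
        · exact Or.inr hb'.1
    · rcases h5 with h5 | ⟨h5, h6, h7, h8⟩
      · exact Or.inl h5
      · refine Or.inr ⟨fun hm => h5 (hSm b (Or.inl hm)), fun hm => ?_, ?_⟩
        · rcases Finset.mem_symmDiff.1 hm with hm | hm
          · exact h5 (hSm b (Or.inr hm.1))
          · exact h6 hm.1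
        · unfold InJ at h7
          omega
    · intro x
      rw [Finset.mem_symmDiff, Finset.mem_singleton]
      by_cases e : x = b
      · subst e
        tauto
      · tauto
  | add t β y h h1 h2 h3 ih =>
    intro ⟨J, hJ⟩
    apply ih
    have hn : (away γ s₀ α₀).n t = (symmDiff s₀ t).sup (fun d => d.1 + len d) + 1 := rfl
    have hSm : ∀ x, x ∈ γ.S (symmDiff s₀ t) ∨ x ∈ α₀ → x ∈ (away γ s₀ α₀).S t := fun x hx =>
      Finset.mem_union.2 hx
    have hy : y ∉ symmDiff α₀ β := by
      intro hm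
      rcases Finset.mem_symmDiff.1 hm with hm | hm
      · exact h1 (hSm y (Or.inr hm.1))
      · exact h2 hm.1
    rw [← symmDiff_assoc, symmDiff_single_of_not_mem hy] at hJ
    obtain ⟨J', hJ', -⟩ := drop hγ hJ y (Finset.mem_insert_self _ _)
      (fun hm => h1 (hSm y (Or.inl hm))) (fun d hd => by
        have h4 : d.1 + len d ≤ (symmDiff s₀ t).sup (fun d => d.1 + len d) :=
          Finset.le_sup (f := fun d : Nd => d.1 + len d) hd
        omega)
    exact ⟨J', hJ'.cast (Finset.erase_insert hy)⟩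

open scoped Classical in
/-- Good parameters above given ones. -/
noncomputable def good (γ : Par) : Par where
  N s := γ.N s + 1
  n s := s.powerset.sup γ.n + s.sup (fun d => d.1 + len d) + 3
  S s := s.powerset.biUnion γ.S

open scoped Classical in
theorem good_good (γ : Par) : Good (good γ) where
  S_mono s d := by
    intro x hx
    have hx' : x ∈ s.powerset.biUnion γ.S := hx
    show x ∈ (insert d s).powerset.biUnion γ.S
    rw [Finset.mem_biUnion] at hx' ⊢
    obtain ⟨u, hu, hxu⟩ := hx'
    exact ⟨u, Finset.mem_powerset.2 ((Finset.mem_powerset.1 hu).trans (Finset.subset_insert _ _)),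
      hxu⟩
  n_mono s d := by
    show s.powerset.sup γ.n + s.sup (fun d => d.1 + len d) + 3 ≤
      (insert d s).powerset.sup γ.n + (insert d s).sup (fun d => d.1 + len d) + 3
    have h1 : s.powerset.sup γ.n ≤ (insert d s).powerset.sup γ.n :=
      Finset.sup_mono (Finset.powerset_mono.2 (Finset.subset_insert _ _))
    have h2 : s.sup (fun d : Nd => d.1 + len d) ≤ (insert d s).sup (fun d => d.1 + len d) :=
      Finset.sup_mono (Finset.subset_insert _ _)
    omega
  big s d hd := by
    show d.1 + len d + 3 ≤ s.powerset.sup γ.n + s.sup (fun d => d.1 + len d) + 3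
    have h1 : d.1 + len d ≤ s.sup (fun d : Nd => d.1 + len d) :=
      Finset.le_sup (f := fun d : Nd => d.1 + len d) hd
    omega

open scoped Classical in
theorem cl_good {γ : Par} {s : Finset Nd} {α : Finset Pt} {J : Pt → Set ℕ}
    (h : Cl μ (good γ) s α J) : Op μ γ s α := by
  refine h.op (fun s => le_refl _) (fun s => ?_) (fun s x hx => ?_)
  · show γ.n s + 1 ≤ s.powerset.sup γ.n + s.sup (fun d => d.1 + len d) + 3
    have h1 : γ.n s ≤ s.powerset.sup γ.n :=
      Finset.le_sup (f := γ.n) (Finset.mem_powerset_self s)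
    omega
  · show x ∈ s.powerset.biUnion γ.S
    exact Finset.mem_biUnion.2 ⟨s, Finset.mem_powerset_self s, hx⟩

end Pool.Agent.Q209.SG
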